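import Mathlib
import Pool.Agent.Y703.CT.T1d
import Pool.Agent.Y703.CX.Rank
import Pool.Agent.U695.JT.Law

/-!
# The strong conjecture, up to units at `3`, for the prime twists of several cubic twists at the same time

`E_N : y² + N y = x³` over `ℚ` is `3`-isogenous to the cubic twist `x³ + y³ = N`. We say that `N` is
good (`Good N`) if the strong conjecture of Birch and Swinnerton-Dyer holds for `E_N` up to units at `3`,
with the value one of the `3`-part: the equation is globally minimal, `L(E_N, s)` is entire, its order of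
vanishing at `1` and the rank are both `0`, the `3`-primary part of `Ш(E_N)` is zero, and
`L(E_N, 1) = u Ω ∏ c_p / #E_N(ℚ)_tors²` with a unit `u` at all places above `3`.

Let `j = 1, 4` or `7` be a residue class modulo `9` and call `D` admissible if it is cube-free, prime to
`3`, has exactly one prime divisor `2` modulo `3` and any number `k` of prime divisors `1` modulo `3`, and
`D j` is not `±1` modulo `9`. Nothing is assumed on the rank, on `Ш` or on the `L`-function of `E_D`.
The new parameter is a prime `ℓ = j` modulo `9`.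

* ONE NUMBER. For every admissible `D` and all `ℓ` not dividing `D` the number `u` of `N = D ℓ` is
  integral at `3`, and it is a unit at `3` if and only if `E_N(ℚ)` is finite and `Ш(E_N)[3^∞] = 0`, if and
  only if `N` is good.
* JOINT LAW. Let `D_1, …, D_n` be admissible and pairwise coprime. Then the `n` properties `D_i ℓ` is
  good of the prime `ℓ` are independent: for every set `A` of indices the proportion of the
  primes `ℓ = j` modulo `9` for which exactly the `D_i ℓ`, `i` in `A`, are good tends to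
  `∏_{i ∈ A} c(D_i) ∏_{i ∉ A} (1 - c(D_i))`. Here `c(D)` is the proportion of the nonsingular systems in
  an explicit family of `3 ^ (2 k + 1)` systems of linear equations over the field with three elements
  attached to `D`, and `(2 / 3) ^ (k + 1) ≤ c(D) ≤ 2 / 3`.
* SEQUENCES. Let `D_0, D_1, …` be any infinite sequence of pairwise coprime admissible numbers. The set
  of the primes `ℓ` for which the frequency of the good `D_i ℓ`, `i < n`, differs from the mean of
  `c(D_0), …, c(D_{n-1})` by at least `ε` has a relative density, at most `2 exp (- ε² n / 4)`. If the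
  numbers of prime divisors of the `D_i` are bounded, then for `100 %` of the primes `ℓ` at least `N` of
  the `D_i ℓ` are good, for every `N`.

The criterion for one `N` (`Pool.Agent.Y703.CT.fin_all`) is that of the starting library
(`ThreePartCubicTwists`, `ThreePartCubeFree`), where it is applied to the average over all `N` of the class.
The law for one `D` (`n = 1`), with the bounds for `c(D)`, is due to helper687 (`Pool.Agent.U687.PT`,
`MP_9c97e9_nt.ThreePartPrimeTwists`); it rests on the description of the system of `D ℓ` by cubic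
reciprocity (`Q283.TQ`) and on the joint law of the cubic residue symbols of the primary primes of
`ℤ[ω]` (`Q283.TC`, from the theorem of Chebotarev). New here are the independence for several `D_i` and
the sequences.
-/

set_option autoImplicit false

open scoped Classical

namespace Pool.Agent.Results.MP_4a9ea6_nt.JointPrimeTwists

open Filter WeierstrassCurve
open Pool.Agent.W97.MT (ap IsGloballyMinimal)
open Pool.Agent.Y700 (Omega tam)
open Pool.Agent.TH841.SH.D (Sha)
open Pool.Agent.Y703.CX (lam)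

/-- the equation `y² + N y = x³` over `ℤ` -/
def W (N : ℕ) : WeierstrassCurve ℤ := ⟨0, 0, (N : ℤ), 0, 0⟩

/-- the curve `E_N : y² + N y = x³` over `ℚ` -/
def E (N : ℕ) : WeierstrassCurve ℚ := ⟨0, 0, (N : ℚ), 0, 0⟩

/-- `f` is the `L`-function of `E_N`: it is entire and equal to the Euler product for `Re s > 3/2` -/
def IsLFunction (N : ℕ) (f : ℂ → ℂ) : Prop :=
  Differentiable ℂ f ∧ ∀ s : ℂ, 3 / 2 < s.re →
    HasProd (fun p : Nat.Primes => (1 - (ap (W N) p : ℂ) * ((p : ℕ) : ℂ) ^ (-s) +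
      (if ((p : ℕ) : ℤ) ∣ (W N).Δ then 0 else ((p : ℕ) : ℂ) ^ (1 - 2 * s)))⁻¹) (f s)

/-- the product `∏ c_p` of the Tamagawa numbers -/
noncomputable def tamagawa (N : ℕ) : ℕ :=
  ∏ p ∈ (W N).Δ.natAbs.primeFactors, if h : p.Prime then (haveI := Fact.mk h; tam (W N) p) else 1

/-- `#E_N(ℚ)_tors` -/
noncomputable def torsion (N : ℕ) : ℕ := Nat.card (AddCommGroup.torsion (E N).toAffine.Point)

/-- the rank of `E_N(ℚ)` -/
noncomputable def rank (N : ℕ) : ℕ := Module.finrank ℤ (E N).toAffine.Point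

/-- `f(1) = u Ω ∏ c_p / #E_N(ℚ)_tors²` -/
def Quotient (N : ℕ) (f : ℂ → ℂ) (u : ℂ) : Prop :=
  f 1 = u * (((Omega (W N) : ℝ) : ℂ) * (tamagawa N : ℂ) / (torsion N : ℂ) ^ 2)

/-- `u` is integral at all places above `3` -/
def Integral3 (u : ℂ) : Prop := ∃ n : ℤ, IsCoprime 3 n ∧ IsIntegral ℤ ((n : ℂ) * u)

/-- `u` is a unit at all places above `3` -/
def Unit3 (u : ℂ) : Prop :=
  u ≠ 0 ∧ ∃ n : ℤ, IsCoprime 3 n ∧ IsIntegral ℤ ((n : ℂ) * u) ∧ IsIntegral ℤ ((n : ℂ) * u⁻¹)

/-- `E_N(ℚ)` is finite and `Ш(E_N/ℚ)[3^∞] = 0` -/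
def Trivial3 (N : ℕ) : Prop :=
  Finite (E N).toAffine.Point ∧ ∀ (n : ℕ) (x : Sha (E N)), 3 ^ n • x = 0 → x = 0

/-- `N` is good: the strong conjecture holds for `E_N` up to units at `3`, with the value one of the
`3`-part: the equation is globally minimal, the order of vanishing and the rank are both `0`,
`Ш(E_N/ℚ)[3^∞] = 0` and `L(E_N, 1) = u Ω ∏ c_p / #E_N(ℚ)_tors²` with a unit `u` at `3` -/
def Good (N : ℕ) : Prop :=
  IsGloballyMinimal (W N) ∧ ∃ f : ℂ → ℂ, IsLFunction N f ∧ analyticOrderAt f 1 = (rank N : ℕ∞) ∧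
    rank N = 0 ∧ ∃ u : ℂ, Quotient N f u ∧ Unit3 u ∧ Trivial3 N

/-- `D` is admissible for `j`: cube-free, prime to `3`, exactly one prime divisor `2` modulo `3`, and
`D j` is not `±1` modulo `9` -/
def Admissible (j D : ℕ) : Prop :=
  (D ≠ 0 ∧ ¬ 3 ∣ D ∧ (∀ p : ℕ, p.Prime → ¬ p ^ 3 ∣ D) ∧
    ∃ q : ℕ, q.Prime ∧ q % 3 = 2 ∧ q ∣ D ∧ ∀ p : ℕ, p.Prime → p ∣ D → p ≠ q → p % 3 = 1) ∧
  (D * j) % 9 ≠ 1 ∧ (D * j) % 9 ≠ 8

/-- the prime divisors of `D` which are `1` modulo `3` -/
def S (D : ℕ) : Finset ℕ := D.primeFactors.filter fun p => p % 3 = 1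

/-- the system with the parameters `a` (on the diagonal) and `b` (on the border) is nonsingular;
`lam p r` is the logarithm `c` of the cubic residue symbol `ω ^ c` of `r` modulo a fixed prime element
of norm `p` of `ℤ[ω]`, and `D.factorization r` is the exponent of `r` in `D` -/
def Nonsingular (D : ℕ) (a : S D → ZMod 3) (b : D.primeFactors → ZMod 3) : Prop :=
  ∀ g : D.primeFactors → ZMod 3,
    (∀ (p : S D) (gp : ZMod 3), (∀ h : (p : ℕ) ∈ D.primeFactors, gp = g ⟨p, h⟩) →
      ∑ r : D.primeFactors, (D.factorization r : ZMod 3) * lam p r * (g r - gp) = a p * gp) →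
    ∑ r : D.primeFactors, (D.factorization r : ZMod 3) * b r * g r = 0 → g = 0

/-- the proportion of the nonsingular systems -/
noncomputable def c (D : ℕ) : ℝ :=
  (Nat.card {x : (S D → ZMod 3) × (D.primeFactors → ZMod 3) // Nonsingular D x.1 x.2} : ℝ) /
    3 ^ (2 * (S D).card + 1)

/-- the number of the primes `ℓ ≤ X`, `ℓ = j` modulo `9`, with the property `P` -/
noncomputable def count (j : ℕ) (P : ℕ → Prop) (X : ℕ) : ℕ :=
  ((Finset.Icc 1 X).filter fun l => l.Prime ∧ l % 9 = j ∧ P l).card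

/-- the proportion of the primes `ℓ ≤ X`, `ℓ = j` modulo `9`, with the property `P` -/
noncomputable def proportion (j : ℕ) (P : ℕ → Prop) (X : ℕ) : ℝ :=
  (count j P X : ℝ) / (count j (fun _ => True) X : ℝ)

/-- the frequency of the `i < n` for which `D i ℓ` is good -/
noncomputable def frequency (D : ℕ → ℕ) (n l : ℕ) : ℝ :=
  (((Finset.range n).filter fun i => Good (D i * l)).card : ℝ) / n

/-- the mean of `c (D i)`, `i < n` -/
noncomputable def mean (D : ℕ → ℕ) (n : ℕ) : ℝ := (∑ i ∈ Finset.range n, c (D i)) / n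

section proof

open Pool.Agent.U687.PT
open Pool.Agent.U695.JT
open Q283.TQ (NSg mu Bs bs_mul)

theorem E_eq (N : ℕ) : Pool.Agent.Y703.CT.EQ (Pool.Agent.Y703.CT.WD N) = E N := by
  unfold Pool.Agent.Y703.CT.EQ Pool.Agent.Y703.CT.WD E WeierstrassCurve.map
  simp

theorem trivial_iff (N : ℕ) : Trivial3 N ↔ Pool.Agent.Y703.CT.Triv3 N := by
  unfold Trivial3 Pool.Agent.Y703.CT.Triv3
  rw [E_eq]

theorem torsion_eq (N : ℕ) : Pool.Agent.Y703.CT.tors N = torsion N := by
  unfold Pool.Agent.Y703.CT.tors torsion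
  rw [E_eq]

theorem trivial_nosplit {N : ℕ} (hC : Pool.Agent.Y703.CT.Cls N) :
    Trivial3 N ↔ Pool.Agent.Y703.CT.NoSplit N := by
  obtain ⟨-, -, -, -, -, -, -, h6⟩ := Pool.Agent.Y703.CT.fin_all hC
  rw [trivial_iff]
  exact h6

theorem rank_zero {N : ℕ} (h : Finite (E N).toAffine.Point) : rank N = 0 :=
  Pool.Agent.Y687.finrank_zero_of_finite h

theorem kinds {N : ℕ} (hC : Pool.Agent.Y703.CT.Cls N) :
    IsGloballyMinimal (W N) ∧ ∃ f : ℂ → ℂ, IsLFunction N f ∧ ∃ u : ℂ, Quotient N f u ∧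
      Integral3 u ∧ (Unit3 u ↔ Trivial3 N) ∧ (Good N ↔ Trivial3 N) := by
  obtain ⟨h1, f, h2, u, h3, h4, h5, -⟩ := Pool.Agent.Y703.CT.fin_all hC
  have h3' : Quotient N f u := by
    unfold Quotient
    rw [h3, torsion_eq]
    rfl
  have h5' : Unit3 u ↔ Trivial3 N := by
    rw [trivial_iff]
    exact h5
  refine ⟨h1, f, h2, u, h3', h4, h5', ?_⟩
  constructor
  · rintro ⟨-, -, -, -, -, -, -, -, h⟩
    exact h
  · intro h
    have hu := h5'.2 h
    have hf1 : f 1 ≠ 0 := by
      refine Pool.Agent.Y703.CX.val_ne hC ?_ hu.1 h3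
      rw [E_eq]
      exact h.1
    have hr := rank_zero h.1
    refine ⟨h1, f, h2, ?_, hr, u, h3', hu, h⟩
    rw [hr]
    exact (h2.1.analyticAt 1).analyticOrderAt_eq_zero.2 hf1

theorem good_iff {N : ℕ} (hC : Pool.Agent.Y703.CT.Cls N) :
    Good N ↔ Pool.Agent.Y703.CT.NoSplit N := by
  obtain ⟨-, -, -, -, -, -, -, h⟩ := kinds hC
  rw [h, trivial_nosplit hC]

theorem bs {j D : ℕ} (h : Admissible j D) : Bs D := ⟨⟨h.1.1, h.1.2.1, h.1.2.2.1⟩, h.1.2.2.2⟩

theorem cls {D l j : ℕ} (hD : Admissible j D) (hj : j = 1 ∨ j = 4 ∨ j = 7) (hl : l.Prime)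
    (hlj : l % 9 = j) (hlD : ¬ l ∣ D) : Pool.Agent.Y703.CT.Cls (D * l) := by
  have hl1 : l % 3 = 1 := by rcases hj with rfl | rfl | rfl <;> omega
  have h2 := bs_mul (bs hD) hl hl1 hlD
  have h3 : (D * l) % 9 = (D * j) % 9 := by rw [Nat.mul_mod, hlj, Nat.mul_mod D j, ← hlj, Nat.mod_mod]
  exact ⟨h2.1, by rw [h3]; exact hD.2.1, by rw [h3]; exact hD.2.2, h2.2⟩

theorem nonsingular_iff (D : ℕ) (a : S D → ZMod 3) (b : D.primeFactors → ZMod 3) :
    Nonsingular D a b ↔ NSg D (ext0 (S := S D) a) (ext0 b) := by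
  have hS : ∀ (g : ℕ → ZMod 3) (F : ℕ → ZMod 3), ∑ r ∈ D.primeFactors, F r =
      ∑ r : D.primeFactors, F r := fun g F => (Finset.sum_coe_sort _ _).symm
  constructor
  · intro h g h1 h2 p hp
    have h3 := h (fun r => g r) (fun p gp hgp => by
      obtain ⟨hp1, hp2⟩ := Finset.mem_filter.1 p.2
      have h4 := h1 p hp1 hp2
      rw [hgp hp1]
      have e1 : ext0 (S := S D) a p = a p := ext0_of (S := S D) a p
      rw [e1, hS g] at h4
      exact h4) (by
      rw [hS g] at h2
      rw [← h2]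
      refine Finset.sum_congr rfl fun r _ => ?_
      rw [ext0_of]
      rfl)
    exact congrFun h3 ⟨p, hp⟩
  · intro h g h1 h2
    have h3 := h (ext0 g) (fun p hp hp1 => by
      have h4 := h1 ⟨p, Finset.mem_filter.2 ⟨hp, hp1⟩⟩ (g ⟨p, hp⟩) (fun _ => rfl)
      have e1 : ext0 (S := S D) a p = a ⟨p, Finset.mem_filter.2 ⟨hp, hp1⟩⟩ :=
        ext0_of (S := S D) a ⟨p, Finset.mem_filter.2 ⟨hp, hp1⟩⟩
      have e2 : ext0 g p = g ⟨p, hp⟩ := ext0_of g ⟨p, hp⟩
      rw [hS (ext0 g), e1, e2, ← h4]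
      refine Finset.sum_congr rfl fun r _ => ?_
      rw [ext0_of]
      rfl) (by
      rw [hS (ext0 g), ← h2]
      refine Finset.sum_congr rfl fun r _ => ?_
      rw [ext0_of, ext0_of]
      rfl)
    funext r
    rw [← ext0_of g r]
    exact h3 r r.2

theorem c_eq (D : ℕ) : c D = dn D := by
  unfold c dn good
  have e : Nat.card {x : (S D → ZMod 3) × (D.primeFactors → ZMod 3) // Nonsingular D x.1 x.2} =
      Nat.card {x : (S1 D → ZMod 3) × (D.primeFactors → ZMod 3) //
        NSg D (ext0 x.1) (ext0 x.2)} :=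
    Nat.card_congr (Equiv.subtypeEquivRight fun x => nonsingular_iff D x.1 x.2)
  rw [e]
  rfl

theorem prop_eq (j : ℕ) (P Q : ℕ → Prop) (i : DecidablePred Q)
    (h : ∀ l, Q l ↔ P l) (X : ℕ) :
    ((@Finset.filter _ Q i ((Finset.Icc 1 X).filter fun l => l.Prime ∧ l % 9 = j)).card : ℝ) /
      (((Finset.Icc 1 X).filter fun l => l.Prime ∧ l % 9 = j).card : ℝ) = proportion j P X := by
  unfold proportion count
  congr 3
  · ext l
    simp only [Finset.mem_filter, h, and_assoc]
  · ext l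
    simp only [Finset.mem_filter, and_true]

end proof

open Pool.Agent.U687.PT in
open Pool.Agent.U695.JT in
theorem result (j : ℕ) (hj : j = 1 ∨ j = 4 ∨ j = 7) :
    -- one number
    (∀ D : ℕ, Admissible j D → (∀ l : ℕ, l.Prime → l % 9 = j → ¬ l ∣ D →
      IsGloballyMinimal (W (D * l)) ∧ ∃ f : ℂ → ℂ, IsLFunction (D * l) f ∧
        ∃ u : ℂ, Quotient (D * l) f u ∧ Integral3 u ∧ (Unit3 u ↔ Trivial3 (D * l)) ∧
          (Good (D * l) ↔ Trivial3 (D * l))) ∧
      (2 / 3 : ℝ) ^ ((S D).card + 1) ≤ c D ∧ c D ≤ 2 / 3) ∧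
    -- the joint law
    (∀ (n : ℕ) (D : Fin n → ℕ), (∀ i, Admissible j (D i)) →
      (Pairwise fun i k => Nat.Coprime (D i) (D k)) → ∀ A : Finset (Fin n),
      Tendsto (proportion j fun l => ∀ i, (i ∈ A ↔ Good (D i * l))) atTop
        (nhds (∏ i : Fin n, if i ∈ A then c (D i) else 1 - c (D i)))) ∧
    -- sequences
    (∀ D : ℕ → ℕ, (∀ i, Admissible j (D i)) → (Pairwise fun i k => Nat.Coprime (D i) (D k)) →
      (∀ n : ℕ, 0 < n → ∀ ε : ℝ, 0 < ε → ∃ d : ℝ, d ≤ 2 * Real.exp (-(ε ^ 2 * n / 4)) ∧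
        Tendsto (proportion j fun l => ε ≤ |frequency D n l - mean D n|) atTop (nhds d)) ∧
      ∀ K : ℕ, (∀ i, (S (D i)).card ≤ K) → ∀ N : ℕ,
        Tendsto (proportion j fun l => ∃ F : Finset ℕ, F.card = N ∧ ∀ i ∈ F, Good (D i * l)) atTop
          (nhds 1)) := by
  have hce : c = dn := funext c_eq
  refine ⟨fun D hD => ⟨fun l hl hlj hlD => kinds (cls hD hj hl hlj hlD), ?_, ?_⟩,
    fun n D hD hc A => ?_, fun D hD hc => ?_⟩
  · rw [hce]
    exact dn_ge (bs hD)
  · rw [hce]
    exact dn_le (bs hD)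
  · rw [hce]
    have h := Pool.Agent.U695.JT.law D (fun i => bs (hD i)) hc hj (fun i l => Good (D i * l))
      (fun i l hl hlD hlj => good_iff (cls (hD i) hj hl hlj hlD)) A
    refine h.congr fun X => ?_
    unfold proportion count
    simp only [and_true]
  · have hP := pat D (fun i => bs (hD i)) hc hj (fun i l => Good (D i * l))
      (fun i l hl hlD hlj => good_iff (cls (hD i) hj hl hlj hlD))
    have hp : ∀ i, 0 ≤ dn (D i) ∧ dn (D i) ≤ 1 := fun i => dn_mem (bs (hD i))
    refine ⟨fun n hn ε hε => ?_, fun K hK N => ?_⟩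
    · obtain ⟨d, h1, h2⟩ := lln hp hP n hn ε hε
      refine ⟨d, h1, h2.congr fun X => ?_⟩
      refine prop_eq j _ _ _ (fun l => ?_) X
      unfold frequency mean
      rw [hce]
    · have hc0 : (0 : ℝ) < (2 / 3) ^ (K + 1) := by positivity
      refine (many hp hc0 (fun i => ?_) hP (eventually_ne hj) N).congr fun X => ?_
      · refine le_trans ?_ (dn_ge (bs (hD i)))
        exact pow_le_pow_of_le_one (by norm_num) (by norm_num) (Nat.succ_le_succ (hK i))
      · exact prop_eq j _ _ _ (fun l => Iff.rfl) X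

end Pool.Agent.Results.MP_4a9ea6_nt.JointPrimeTwists
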