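import Mathlib
import Pool.Agent.U33.B3.Str
import Pool.Agent.U33.B3.Least

/-!
# The strong conjecture, up to units at `3`, for the twists of every number by the primes `2` modulo `3`

`E_N : y² + N y = x³` over `ℚ` is `3`-isogenous to `x³ + y³ = N`. `Good N` (`JointPrimeTwists`, a starting
file) says that the strong conjecture of Birch and Swinnerton-Dyer holds for `E_N` up to units at `3`, with
order and rank `0` and the value one of the `3`-part.

`D` is ANY cube-free number with all prime factors `1` modulo `3` (`k ≥ 0` of them); nothing is assumed on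
ranks, `L`-functions or `Ш`. The new parameter is a prime `q = 2` modulo `3`, and `N = D q` or `N = D q²`
(`e = 1, 2`): the starting results treat the new primes `1` modulo `3`, for which the number `D` has to have
a prime factor `2` modulo `3` already. `q` runs through a class `j = 2, 5, 8` modulo `9` such that `D j ^ e`
is not `±1` modulo `9` (two of the three classes have this property).

* ONE NUMBER. The formula is integral at `3`, and `D q ^ e` is good iff `E(ℚ)` is finite and `Ш[3^∞] = 0`.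
  This depends only on the residue class of `q` modulo the prime factors of `D` (and modulo `9`).
* LAW. For every finite set `𝒟` of the `D` and `V ⊆ 𝒟` the proportion of the `q` for which exactly the
  `D q ^ e`, `D ∈ V`, are good tends to the proportion `const 𝒟 V` of certain nonsingular linear systems over
  the field with three elements; it is `∏_{D ∈ V} c(D) ∏_{D ∈ 𝒟 \ V} (1 - c(D))` if the `D ∈ 𝒟` are pairwise
  coprime, and `(2 / 3) ^ k ≤ c(D) ≤ 1 - (1 / 3) ^ k` if `k ≥ 1`, `c(1) = 1`.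
* UNIFORMITY. There are `K` and `c₀ > 0` such that for all large `z` and for all `𝒟` with
  `modulus 𝒟 ^ 16 ≤ z`, `modulus 𝒟 = 9 ∏ p`, which is not a multiple of one exceptional number `q₁` (larger
  than a given power of `log z`), the sum of `1 / q` over the primes `q = j` modulo `9` with the pattern `V`
  and `z < q ≤ z ^ K` is at least `c₀ const 𝒟 V`. So the least good prime is at most a power of the modulus.
* STRINGS. If `const 𝒟 V > 0` then for all `m` there are infinitely many strings of `m` CONSECUTIVE primes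
  of bounded diameter which are all `j` modulo `9` and have the pattern `V`.
* HEREDITARY FORM. Every infinite set `A` of integers contains an infinite set `B` such that for ALL
  (countably many) `e, j, 𝒟, V` with `const 𝒟 V > 0` all subsets `S` of `B` avoiding a finite set are
  exact prime patterns: for every `R` there are infinitely many `n` such that the primes at distance at
  most `R` from `n` are exactly the `n + s`, `s ∈ S`, they are `j` modulo `9`, and they have the pattern `V`.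
-/

set_option autoImplicit false
set_option linter.style.haveILetI false

open scoped Classical

namespace Pool.Agent.Results.MP_4a9ea6_nt.InertPrimeTwists

open Filter
open Pool.Agent.Y703.CX (lam)
open Pool.Agent.W97.MT (IsGloballyMinimal)
open Pool.Agent.Results.MP_4a9ea6_nt.JointPrimeTwists (W IsLFunction Quotient Integral3 Unit3 Trivial3
  Good)

/-- the exponents and the classes -/
def Case (e j : ℕ) : Prop := (e = 1 ∨ e = 2) ∧ (j = 2 ∨ j = 5 ∨ j = 8)

/-- `D` is cube-free, all its prime factors are `1` modulo `3`, and `D j ^ e` is not `±1` modulo `9` -/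
def Admissible (e j D : ℕ) : Prop :=
  (D ≠ 0 ∧ (∀ p : ℕ, p.Prime → ¬ p ^ 3 ∣ D) ∧ ∀ p ∈ D.primeFactors, p % 3 = 1) ∧
    (D * j ^ e) % 9 ≠ 1 ∧ (D * j ^ e) % 9 ≠ 8

/-- the linear system with the parameters `a` has only the zero solution; `lam p r` is the logarithm `c` of
the cubic residue symbol `ω ^ c` of `r` modulo a fixed prime element of norm `p` of `ℤ[ω]`, and
`D.factorization r` is the exponent of `r` in `D` -/
def Nonsingular (D : ℕ) (a : ℕ → ZMod 3) : Prop :=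
  ∀ g : ℕ → ZMod 3,
    (∀ p ∈ D.primeFactors,
      ∑ r ∈ D.primeFactors, (D.factorization r : ZMod 3) * lam p r * (g r - g p) = a p * g p) →
    ∀ p ∈ D.primeFactors, g p = 0

/-- extension by zero -/
noncomputable def ext {R : Finset ℕ} (u : R → ZMod 3) (r : ℕ) : ZMod 3 :=
  if h : r ∈ R then u ⟨r, h⟩ else 0

/-- the proportion of the nonsingular systems -/
noncomputable def c (D : ℕ) : ℝ :=
  (Nat.card {u : D.primeFactors → ZMod 3 // Nonsingular D (ext u)} : ℝ) / 3 ^ D.primeFactors.card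

/-- the prime factors of the elements of `𝒟` -/
def primes (𝒟 : Finset ℕ) : Finset ℕ := 𝒟.biUnion Nat.primeFactors

/-- the modulus -/
def modulus (𝒟 : Finset ℕ) : ℕ := 9 * ∏ r ∈ primes 𝒟, r

/-- the proportion of the vectors for which exactly the systems of the `D ∈ V` are nonsingular -/
noncomputable def const (𝒟 V : Finset ℕ) : ℝ :=
  (Nat.card {u : primes 𝒟 → ZMod 3 // ∀ D ∈ 𝒟, (Nonsingular D (ext u) ↔ D ∈ V)} : ℝ) /
    3 ^ (primes 𝒟).card

/-- among the `D q ^ e`, `D ∈ 𝒟`, exactly those with `D ∈ V` are good -/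
def Pattern (e : ℕ) (𝒟 V : Finset ℕ) (q : ℕ) : Prop := ∀ D ∈ 𝒟, (Good (D * q ^ e) ↔ D ∈ V)

/-- the number of the primes `q ≤ X`, `q = j` modulo `9`, with the property `P` -/
noncomputable def count (j : ℕ) (P : ℕ → Prop) (X : ℕ) : ℕ :=
  ((Finset.Icc 1 X).filter fun q => q.Prime ∧ q % 9 = j ∧ P q).card

/-- the primes at distance at most `R` from `n` are exactly the `n + s`, `s ∈ S` -/
def ExactPrimes (S : Set ℤ) (R n : ℕ) : Prop :=
  ∀ y : ℤ, |y| ≤ R → (Nat.Prime ((n : ℤ) + y).toNat ↔ y ∈ S)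

open Pool.Agent.U33.B3 in
/-- **The strong conjecture up to units at `3` for the twists by primes `2` modulo `3`.** -/
theorem result :
    -- one number
    (∀ e j D : ℕ, Case e j → Admissible e j D →
      (∀ q : ℕ, q.Prime → q % 9 = j → IsGloballyMinimal (W (D * q ^ e)) ∧
        ∃ f : ℂ → ℂ, IsLFunction (D * q ^ e) f ∧ ∃ u : ℂ, Quotient (D * q ^ e) f u ∧ Integral3 u ∧
          (Unit3 u ↔ Trivial3 (D * q ^ e)) ∧ (Good (D * q ^ e) ↔ Trivial3 (D * q ^ e))) ∧
      (∀ q q' : ℕ, q.Prime → q'.Prime → q % 9 = j → q' % 9 = j →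
        (∀ p ∈ D.primeFactors, q ≡ q' [MOD p]) → (Good (D * q ^ e) ↔ Good (D * q' ^ e))) ∧
      (2 / 3 : ℝ) ^ D.primeFactors.card ≤ c D ∧
      (D ≠ 1 → c D ≤ 1 - (1 / 3 : ℝ) ^ D.primeFactors.card)) ∧
    -- the law
    (∀ (e j : ℕ) (𝒟 V : Finset ℕ), Case e j → (∀ D ∈ 𝒟, Admissible e j D) → V ⊆ 𝒟 →
      Tendsto (fun X : ℕ => (count j (Pattern e 𝒟 V) X : ℝ) / (count j (fun _ => True) X : ℝ))
        atTop (nhds (const 𝒟 V)) ∧
      ((∀ D ∈ 𝒟, ∀ D' ∈ 𝒟, D ≠ D' → Nat.Coprime D D') →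
        const 𝒟 V = (∏ D ∈ V, c D) * ∏ D ∈ 𝒟 \ V, (1 - c D))) ∧
    -- uniformity
    (∃ (K : ℕ) (c₀ : ℝ), 1 ≤ K ∧ 0 < c₀ ∧ ∀ B : ℕ, ∃ z₀ : ℕ, ∀ z : ℕ, z₀ ≤ z →
      ∃ q₁ : ℕ, (Real.log z) ^ B < (q₁ : ℝ) ∧ ∀ (e j : ℕ) (𝒟 V : Finset ℕ), Case e j →
        (∀ D ∈ 𝒟, Admissible e j D) → (modulus 𝒟) ^ 16 ≤ z → ¬ q₁ ∣ modulus 𝒟 →
          c₀ * const 𝒟 V ≤ ∑ q ∈ (Finset.Ioc z (z ^ K)).filter
            (fun q => q.Prime ∧ q % 9 = j ∧ Pattern e 𝒟 V q), (1 : ℝ) / q) ∧
    -- strings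
    (∀ (e j : ℕ) (𝒟 V : Finset ℕ), Case e j → (∀ D ∈ 𝒟, Admissible e j D) → 0 < const 𝒟 V →
      ∀ m : ℕ, ∃ H : ℕ, ∀ N : ℕ, ∃ q : Fin m → ℕ, StrictMono q ∧
        (∀ i, N ≤ q i ∧ (q i).Prime ∧ q i % 9 = j ∧ Pattern e 𝒟 V (q i)) ∧
        (∀ i i', q i' ≤ q i + H) ∧
        (∀ r : ℕ, r.Prime → ∀ i i', q i ≤ r → r ≤ q i' → ∃ k, r = q k)) ∧
    -- the hereditary form
    (∀ A : Set ℤ, A.Infinite → ∃ B ⊆ A, B.Infinite ∧
      ∀ (e j : ℕ) (𝒟 V : Finset ℕ), Case e j → (∀ D ∈ 𝒟, Admissible e j D) → 0 < const 𝒟 V →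
        ∃ F : Set ℤ, F.Finite ∧ ∀ S ⊆ B \ F, ∀ R : ℕ, {n : ℕ | ExactPrimes S R n ∧
          ∀ y ∈ S, |y| ≤ R → ((n : ℤ) + y).toNat % 9 = j ∧
            Pattern e 𝒟 V ((n : ℤ) + y).toNat}.Infinite) := by
  refine ⟨fun e j D hc hD => ⟨fun q hq hq9 => ?_, fun q q' hq hq' hq9 hq9' h => ?_, c2_ge D,
      fun h1 => c2_le ?_⟩,
    fun e j 𝒟 V hc h𝒟 hV => ⟨dens_pattern h𝒟 hc.1 hc.2, fun hco => pconst_prod hco hV
      (sub_primes 𝒟)⟩, ?_, fun e j 𝒟 V hc h𝒟 hpos m => ?_, fun A hA => ?_⟩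
  · exact Pool.Agent.Results.MP_4a9ea6_nt.JointPrimeTwists.kinds (cls_pow hD hc.1 hc.2 hq hq9)
  · exact good_congr hD hc.1 hc.2 hq hq9 hq' hq9' h
  · rw [Finset.nonempty_iff_ne_empty]
    intro h2
    rcases Nat.primeFactors_eq_empty.1 h2 with h3 | h3
    · exact hD.1.1 h3
    · exact h1 h3
  · obtain ⟨K, c₀, hK, hc₀, h⟩ := least_pattern
    refine ⟨K, c₀, hK, hc₀, fun B => ?_⟩
    obtain ⟨z0, h0⟩ := h B
    refine ⟨z0, fun z hz => ?_⟩
    obtain ⟨q1, hq1, h1⟩ := h0 z hz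
    refine ⟨q1, hq1, fun e j 𝒟 V hc h𝒟 h16 hnd => ?_⟩
    refine (h1 e j 𝒟 V hc.1 hc.2 h𝒟 h16 hnd).trans (le_of_eq ?_)
    refine Finset.sum_congr ?_ fun _ _ => rfl
    ext q
    rw [Finset.mem_filter, Finset.mem_filter]
    exact Iff.rfl
  · obtain ⟨M, a, hM, hcop, hcls⟩ := exists_class3 (V := V) h𝒟 hc.1 hc.2 hpos
    obtain ⟨H, hH⟩ := strings_class hM hcop m
    refine ⟨H, fun N => ?_⟩
    obtain ⟨q, h1, h2, h3, h4⟩ := hH N
    exact ⟨q, h1, fun i => ⟨(h2 i).1, (h2 i).2.1, (hcls _ (h2 i).2.1 (h2 i).2.2).1,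
      (hcls _ (h2 i).2.1 (h2 i).2.2).2⟩, h3, h4⟩
  · obtain ⟨B, hBA, hB, h⟩ := hered_nat A hA
    refine ⟨B, hBA, hB, fun e j 𝒟 V hc h𝒟 hpos => ?_⟩
    obtain ⟨M, a, hM, hcop, hcls⟩ := exists_class3 (V := V) h𝒟 hc.1 hc.2 hpos
    obtain ⟨F, hF, h1⟩ := h M a hM hcop
    refine ⟨F, hF, fun S hS R => (h1 S hS R).mono ?_⟩
    rintro n ⟨hn1, hn2⟩
    exact ⟨hn1, fun y hy hR => hcls _ (hn2 y hy hR).1 (hn2 y hy hR).2⟩

end Pool.Agent.Results.MP_4a9ea6_nt.InertPrimeTwists
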