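import Mathlib
import Pool.Agent.Y703.CT.T1d
import Pool.Agent.Y703.CX.Rank
import Pool.Agent.U687.MC.RatMain
import Pool.Agent.U687.MC.Bd2

/-!
# The strong conjecture, up to units at `3`, in the successive prime twists of EVERY cubic twist
# `x³ + y³ = D`: a Markov chain with a universal limit

`E_N : y² + N y = x³` over `ℚ` is `3`-isogenous to the cubic twist `x³ + y³ = N`. We say that `N` is
good (`Good N`) if the strong conjecture of Birch and Swinnerton-Dyer holds for `E_N` up to units at `3`,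
with the value one of the `3`-part: the equation is globally minimal, `L(E_N, s)` is entire, its order of
vanishing at `1` and the rank are both `0`, the `3`-primary part of `Ш(E_N)` is zero, and
`L(E_N, 1) = u Ω ∏ c_p / #E_N(ℚ)_tors²` with a unit `u` at all places above `3`. It is of the other kind
(`Other N`) if `u` is integral at `3` but not a unit, and `E_N(ℚ)` is infinite or `Ш(E_N)[3^∞] ≠ 0`.

Let `D` be ANY cube-free number, prime to `3`, with exactly one prime divisor `2` modulo `3` and with `n`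
prime divisors `1` modulo `3`. NOTHING is assumed on the rank, on `Ш` or on the `L`-function of `E_D`. We
twist `E_D` successively by primes `ℓ_k, …, ℓ_1, ℓ_0`, which vary in this order, `ℓ_i = j_i` modulo `9` with
arbitrary `j_i = 1, 4, 7` such that `D j_k ⋯ j_0` is not `±1` modulo `9`. The density of a property of
`N = D ℓ_k ⋯ ℓ_0` is the iterated one: `lim_{X_k → ∞} mean_{ℓ_k} ⋯ lim_{X_0 → ∞} mean_{ℓ_0} [property of N]`,
the mean over the primes `ℓ_i ≤ X_i`, `ℓ_i = j_i` modulo `9` (those that divide the previous number are left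
out).

* The density `P_{k+1}` of the good `N` exists. Let `R` be the matrix with `n` rows and `n + 1` columns over
  the field with three elements with the entries `e_r λ_p(r)` (`p = 1` modulo `3`, `r` any prime divisor
  of `D`, `e_r` its exponent, `λ_p` the logarithm of the cubic residue symbol modulo `p`). Then `P_{k+1}` is
  the probability of the state `0` at the time `k` of the Markov chain with the transitions
  `r → r - 1`: `(1 - 3^{-r})²`, `r → r + 1`: `3^{-(2r+1)}`, `r → r` otherwise, started with the law of the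
  corank of the matrix `R` with a random diagonal and a random additional row.
* `|P_{k+1} - 0.5601...| ≤ (2^n + 1) (2/3)^k`, the limit is `∏_{i ≥ 1} (1 - 3^{-i})`: after sufficiently many
  steps about 56 percent of the twists are good, whatever curve `E_D` we start with, at an exponential
  rate and uniformly in the `j_i`. Moreover `(2/3)^{n+1+k} ≤ P_{k+1} ≤ 2/3` for all `k`.
* The density of the `N` of the other kind is exactly `1 - P_{k+1}`.

The criterion for one `N` (`Pool.Agent.Y703.CT.fin_all`) is that of the starting library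
(`ThreePartCubicTwists`), where it is applied to the average over all `N` of the class; the description of
the system of `D ℓ` by cubic reciprocity is `Q283.TQ`, the joint law of the cubic residue symbols is
`Q283.TC` (from the theorem of Chebotarev) with `Pool.Agent.U687.PT`. New are the chain: a variable prime
adds to `R` a row and a column whose entries are independent and uniform; the transition probabilities;
and a contraction of the cumulative distribution functions in the norm `sup 2^r |F(r)|`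
(`Pool.Agent.U687.MC`).
-/

set_option autoImplicit false

open scoped Classical

namespace Pool.Agent.Results.MP_4a9ea6_nt.IteratedPrimeTwists

open Filter WeierstrassCurve
open Pool.Agent.W97.MT (ap IsGloballyMinimal)
open Pool.Agent.Y700 (Omega tam)
open Pool.Agent.TH841.SH.D (Sha)
open Pool.Agent.Y703.CX (lam)

/-- the equation `y² + N y = x³` over `ℤ` -/
def W (N : ℕ) : WeierstrassCurve ℤ := ⟨0, 0, (N : ℤ), 0, 0⟩

/-- the curve `E_N : y² + N y = x³` over `ℚ` -/
def E (N : ℕ) : WeierstrassCurve ℚ := ⟨0, 0, (N : ℚ), 0, 0⟩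

/-- `f` is the `L`-function of `E_N`: it is entire and equal to the Euler product for `Re s > 3/2` -/
def IsLFunction (N : ℕ) (f : ℂ → ℂ) : Prop :=
  Differentiable ℂ f ∧ ∀ s : ℂ, 3 / 2 < s.re →
    HasProd (fun p : Nat.Primes => (1 - (ap (W N) p : ℂ) * ((p : ℕ) : ℂ) ^ (-s) +
      (if ((p : ℕ) : ℤ) ∣ (W N).Δ then 0 else ((p : ℕ) : ℂ) ^ (1 - 2 * s)))⁻¹) (f s)

/-- the product `∏ c_p` of the Tamagawa numbers -/
noncomputable def tamagawa (N : ℕ) : ℕ :=
  ∏ p ∈ (W N).Δ.natAbs.primeFactors, if h : p.Prime then (haveI := Fact.mk h; tam (W N) p) else 1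

/-- `#E_N(ℚ)_tors` -/
noncomputable def torsion (N : ℕ) : ℕ := Nat.card (AddCommGroup.torsion (E N).toAffine.Point)

/-- the rank of `E_N(ℚ)` -/
noncomputable def rank (N : ℕ) : ℕ := Module.finrank ℤ (E N).toAffine.Point

/-- `f(1) = u Ω ∏ c_p / #E_N(ℚ)_tors²` -/
def Quotient (N : ℕ) (f : ℂ → ℂ) (u : ℂ) : Prop :=
  f 1 = u * (((Omega (W N) : ℝ) : ℂ) * (tamagawa N : ℂ) / (torsion N : ℂ) ^ 2)

/-- `u` is integral at all places above `3` -/
def Integral3 (u : ℂ) : Prop := ∃ n : ℤ, IsCoprime 3 n ∧ IsIntegral ℤ ((n : ℂ) * u)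

/-- `u` is a unit at all places above `3` -/
def Unit3 (u : ℂ) : Prop :=
  u ≠ 0 ∧ ∃ n : ℤ, IsCoprime 3 n ∧ IsIntegral ℤ ((n : ℂ) * u) ∧ IsIntegral ℤ ((n : ℂ) * u⁻¹)

/-- `E_N(ℚ)` is finite and `Ш(E_N/ℚ)[3^∞] = 0` -/
def Trivial3 (N : ℕ) : Prop :=
  Finite (E N).toAffine.Point ∧ ∀ (n : ℕ) (x : Sha (E N)), 3 ^ n • x = 0 → x = 0

/-- `N` is good: the strong conjecture holds for `E_N` up to units at `3`, with the value one of the
`3`-part: the equation is globally minimal, the order of vanishing and the rank are both `0`,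
`Ш(E_N/ℚ)[3^∞] = 0` and `L(E_N, 1) = u Ω ∏ c_p / #E_N(ℚ)_tors²` with a unit `u` at `3` -/
def Good (N : ℕ) : Prop :=
  IsGloballyMinimal (W N) ∧ ∃ f : ℂ → ℂ, IsLFunction N f ∧ analyticOrderAt f 1 = (rank N : ℕ∞) ∧
    rank N = 0 ∧ ∃ u : ℂ, Quotient N f u ∧ Unit3 u ∧ Trivial3 N

/-- the other kind: `u` is integral at `3` but not a unit, and `E_N(ℚ)` is infinite or
`Ш(E_N/ℚ)[3^∞] ≠ 0` -/
def Other (N : ℕ) : Prop :=
  IsGloballyMinimal (W N) ∧ ∃ f : ℂ → ℂ, IsLFunction N f ∧
    ∃ u : ℂ, Quotient N f u ∧ Integral3 u ∧ ¬ Unit3 u ∧ ¬ Trivial3 N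

/-- the family: `D` cube-free, prime to `3`, exactly one prime factor congruent to `2` modulo `3` -/
def Family (D : ℕ) : Prop :=
  D ≠ 0 ∧ ¬ 3 ∣ D ∧ (∀ p : ℕ, p.Prime → ¬ p ^ 3 ∣ D) ∧
    ∃ q : ℕ, q.Prime ∧ q % 3 = 2 ∧ q ∣ D ∧ ∀ p : ℕ, p.Prime → p ∣ D → p ≠ q → p % 3 = 1

/-- the mean of `T ℓ` over the primes `ℓ ≤ X`, `ℓ = j` modulo `9`; the terms of the finitely many `ℓ`
that divide `D` are left out -/
noncomputable def average (j D : ℕ) (T : ℕ → ℝ) (X : ℕ) : ℝ :=
  (∑ l ∈ (Finset.Icc 1 X).filter (fun l => l.Prime ∧ l % 9 = j ∧ ¬ l ∣ D), T l) /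
    (((Finset.Icc 1 X).filter fun l => l.Prime ∧ l % 9 = j).card : ℝ)

/-- the iterated limits of the means of `T` over the `k`-fold prime twists of `D` -/
noncomputable def iterated (j : ℕ → ℕ) (T : ℕ → ℝ) : ℕ → ℕ → ℝ
  | 0, D => T D
  | k + 1, D => limUnder atTop (average (j k) D (fun l => iterated j T k (D * l)))

/-- the limit of the means over the first prime (of the iterated limits for the others) exists -/
def LimitExists (j : ℕ → ℕ) (T : ℕ → ℝ) (k D : ℕ) : Prop :=
  Tendsto (average (j k) D (fun l => iterated j T k (D * l))) atTop (nhds (iterated j T (k + 1) D))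

/-- `1` if `N` is good, and `0` otherwise -/
noncomputable def good (N : ℕ) : ℝ := if Good N then 1 else 0

/-- `1` if `N` is of the other kind, and `0` otherwise -/
noncomputable def other (N : ℕ) : ℝ := if Other N then 1 else 0

/-- `P` enumerates the prime divisors of `D`, the one which is `2` modulo `3` comes last -/
def IsEnumeration (D n : ℕ) (P : Fin (n + 1) → ℕ) : Prop :=
  Function.Injective P ∧ D.primeFactors = Finset.univ.image P ∧ P (Fin.last n) % 3 = 2 ∧
    ∀ p : Fin n, P p.castSucc % 3 = 1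

/-- the matrix of the symbols; `lam p r` is the logarithm `c` of the cubic residue symbol `ω ^ c` of `r`
modulo a fixed prime element of norm `p` of `ℤ[ω]` -/
noncomputable def symbols (D : ℕ) {n : ℕ} (P : Fin (n + 1) → ℕ) :
    Matrix (Fin n) (Fin (n + 1)) (ZMod 3) :=
  Matrix.of fun p k => (D.factorization (P k) : ZMod 3) * lam (P p.castSucc) (P k)

/-- the matrix `R` with `a` added on the diagonal and with the additional row `b` -/
def enlarge {n : ℕ} (R : Matrix (Fin n) (Fin (n + 1)) (ZMod 3)) (a : Fin n → ZMod 3)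
    (b : Fin (n + 1) → ZMod 3) : Matrix (Fin (n + 1)) (Fin (n + 1)) (ZMod 3) :=
  Matrix.of (Fin.cons b fun p k => R p k + if p.castSucc = k then a p else 0)

/-- the share of the pairs `(a, b)` for which the corank is `r` -/
noncomputable def share {n : ℕ} (R : Matrix (Fin n) (Fin (n + 1)) (ZMod 3)) (r : ℕ) : ℝ :=
  (Nat.card {x : (Fin n → ZMod 3) × (Fin (n + 1) → ZMod 3) //
    (enlarge R x.1 x.2).rank + r = n + 1} : ℝ) / 3 ^ (2 * n + 1)

/-- one step of the Markov chain -/
noncomputable def markov (μ : ℕ → ℝ) (r : ℕ) : ℝ :=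
  (1 - (1 / 3) ^ (r + 1)) ^ 2 * μ (r + 1) +
    ((1 / 3) ^ r * (1 - (1 / 3) ^ (r + 1)) + (1 - (1 / 3) ^ r) * (1 / 3) ^ r) * μ r +
    (if r = 0 then 0 else (1 / 3) ^ (r - 1) * (1 / 3) ^ r * μ (r - 1))

/-- the law of the Markov chain at the time `k` -/
noncomputable def chain {n : ℕ} (R : Matrix (Fin n) (Fin (n + 1)) (ZMod 3)) : ℕ → ℕ → ℝ
  | 0 => share R
  | k + 1 => markov (chain R k)

/-- the classes `j i` are `1, 4, 7`, and `D j_k ⋯ j_0` is not `±1` modulo `9` -/
def Admissible (j : ℕ → ℕ) (k D : ℕ) : Prop :=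
  (∀ i, j i = 1 ∨ j i = 4 ∨ j i = 7) ∧ (D * ∏ i ∈ Finset.range (k + 1), j i) % 9 ≠ 1 ∧
    (D * ∏ i ∈ Finset.range (k + 1), j i) % 9 ≠ 8

/-- `∏_{i ≥ 1} (1 - 3^{-i}) = 0.5601...` -/
noncomputable def limit : ℝ := ∏' i : ℕ, (1 - (1 / 3 : ℝ) ^ (i + 1))

section proof

open Pool.Agent.U687.MC
open Q283.TQ (NSg mu Bs bs_mul)

theorem E_eq (N : ℕ) : Pool.Agent.Y703.CT.EQ (Pool.Agent.Y703.CT.WD N) = E N := by
  unfold Pool.Agent.Y703.CT.EQ Pool.Agent.Y703.CT.WD E WeierstrassCurve.map
  simp

theorem trivial_iff (N : ℕ) : Trivial3 N ↔ Pool.Agent.Y703.CT.Triv3 N := by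
  unfold Trivial3 Pool.Agent.Y703.CT.Triv3
  rw [E_eq]

theorem torsion_eq (N : ℕ) : Pool.Agent.Y703.CT.tors N = torsion N := by
  unfold Pool.Agent.Y703.CT.tors torsion
  rw [E_eq]

theorem trivial_nosplit {N : ℕ} (hC : Pool.Agent.Y703.CT.Cls N) :
    Trivial3 N ↔ Pool.Agent.Y703.CT.NoSplit N := by
  obtain ⟨-, -, -, -, -, -, -, h6⟩ := Pool.Agent.Y703.CT.fin_all hC
  rw [trivial_iff]
  exact h6

theorem kinds {N : ℕ} (hC : Pool.Agent.Y703.CT.Cls N) :
    (Good N ↔ Trivial3 N) ∧ (Other N ↔ ¬ Trivial3 N) := by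
  obtain ⟨h1, f, h2, u, h3, h4, h5, -⟩ := Pool.Agent.Y703.CT.fin_all hC
  have h3' : Quotient N f u := by
    unfold Quotient
    rw [h3, torsion_eq]
    rfl
  have h5' : Unit3 u ↔ Trivial3 N := by
    rw [trivial_iff]
    exact h5
  constructor
  · constructor
    · rintro ⟨-, -, -, -, -, -, -, -, h⟩
      exact h
    · intro h
      have hu := h5'.2 h
      have hf1 : f 1 ≠ 0 := by
        refine Pool.Agent.Y703.CX.val_ne hC ?_ hu.1 h3
        rw [E_eq]
        exact h.1
      have hr : rank N = 0 := Pool.Agent.Y687.finrank_zero_of_finite h.1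
      refine ⟨h1, f, h2, ?_, hr, u, h3', hu, h⟩
      rw [hr]
      exact (h2.1.analyticAt 1).analyticOrderAt_eq_zero.2 hf1
  · constructor
    · rintro ⟨-, -, -, -, -, -, -, h⟩
      exact h
    · intro h
      exact ⟨h1, f, h2, u, h3', h4, fun h' => h (h5'.1 h'), h⟩

theorem iterated_eq (j : ℕ → ℕ) (T : ℕ → ℝ) (k : ℕ) : ∀ D : ℕ, iterated j T k D = itq j T k D := by
  induction k with
  | zero =>
    intro D
    rfl
  | succ k ih =>
    intro D
    show limUnder atTop (average (j k) D (fun l => iterated j T k (D * l))) =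
      limUnder atTop (aq (j k) D (fun l => itq j T k (D * l)))
    have h : (fun l => iterated j T k (D * l)) = fun l => itq j T k (D * l) := funext fun l => ih _
    rw [h]
    rfl

theorem share_eq {n : ℕ} (R : Matrix (Fin n) (Fin (n + 1)) (ZMod 3)) (r : ℕ) :
    share R r = d2 0 R r := by
  show _ = (∑ a : Fin n → ZMod 3, ∑ b : Fin (n + 1) → ZMod 3, pt r (cor (pert R a b))) /
      3 ^ (2 * n + 1)
  unfold share
  congr 1
  rw [← Fintype.sum_prod_type' (f := fun (a : Fin n → ZMod 3) (b : Fin (n + 1) → ZMod 3) =>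
    pt r (cor (pert R a b))), Nat.card_eq_fintype_card, Fintype.card_subtype, ← Finset.sum_boole]
  refine Finset.sum_congr rfl fun x _ => ?_
  have h1 : enlarge R x.1 x.2 = pert R x.1 x.2 := by
    ext p k
    refine Fin.cases rfl (fun p => rfl) p
  have h := cor_rank (pert R x.1 x.2)
  unfold pt
  rw [h1]
  by_cases hr : cor (pert R x.1 x.2) = r
  · rw [if_pos hr, if_pos (by omega)]
  · rw [if_neg hr, if_neg (by omega)]

theorem chain_eq {n : ℕ} (R : Matrix (Fin n) (Fin (n + 1)) (ZMod 3)) (k : ℕ) :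
    chain R k = d2 k R := by
  induction k with
  | zero =>
    funext r
    exact share_eq R r
  | succ k ih =>
    funext r
    rw [d2_succ k R r, ← ih]
    rfl

theorem bs {D : ℕ} (h : Family D) : Bs D := ⟨⟨h.1, h.2.1, h.2.2.1⟩, h.2.2.2⟩

theorem main {D n : ℕ} {P : Fin (n + 1) → ℕ} (hD : Family D) (hP : IsEnumeration D n P)
    {j : ℕ → ℕ} {k : ℕ} (hj : Admissible j k D) :
    (LimitExists j good k D ∧ iterated j good (k + 1) D = chain (symbols D P) k 0) ∧
    (LimitExists j other k D ∧ iterated j other (k + 1) D = 1 - chain (symbols D P) k 0) := by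
  have hE : En D n P := ⟨hP.1, hP.2.1, hP.2.2.1, hP.2.2.2⟩
  obtain ⟨g1, g2⟩ := itq_main j hj.1 1 0 good (fun N hN => by
    unfold good
    by_cases h : Pool.Agent.Y703.CT.NoSplit N
    · rw [if_pos h, if_pos ((kinds hN).1.2 ((trivial_nosplit hN).2 h))]
    · rw [if_neg h, if_neg fun h' => h ((trivial_nosplit hN).1 ((kinds hN).1.1 h'))]) k D n P
    (bs hD) hE hj.2.1 hj.2.2
  obtain ⟨b1, b2⟩ := itq_main j hj.1 0 1 other (fun N hN => by
    unfold other
    by_cases h : Pool.Agent.Y703.CT.NoSplit N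
    · rw [if_pos h, if_neg fun h' => (kinds hN).2.1 h' ((trivial_nosplit hN).2 h)]
    · rw [if_neg h, if_pos ((kinds hN).2.2 fun h' => h ((trivial_nosplit hN).1 h'))]) k D n P
    (bs hD) hE hj.2.1 hj.2.2
  have hl : ∀ T : ℕ → ℝ, (fun l => iterated j T k (D * l)) = fun l => itq j T k (D * l) :=
    fun T => funext fun l => iterated_eq j T k _
  rw [EG_uw] at g1 g2 b1 b2
  have e0 : (0 : ℝ) + (1 - 0) * d2 k (RD D P) 0 = chain (symbols D P) k 0 := by
    rw [chain_eq]
    show _ = d2 k (RD D P) 0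
    ring
  have e1 : (1 : ℝ) + (0 - 1) * d2 k (RD D P) 0 = 1 - chain (symbols D P) k 0 := by
    rw [chain_eq]
    show _ = 1 - d2 k (RD D P) 0
    ring
  rw [e0] at g1 g2
  rw [e1] at b1 b2
  have i1 : iterated j good (k + 1) D = chain (symbols D P) k 0 := (iterated_eq j good (k + 1) D).trans g2
  have i2 : iterated j other (k + 1) D = 1 - chain (symbols D P) k 0 :=
    (iterated_eq j other (k + 1) D).trans b2
  refine ⟨⟨?_, i1⟩, ⟨?_, i2⟩⟩
  · unfold LimitExists
    rw [i1, hl]
    exact g1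
  · unfold LimitExists
    rw [i2, hl]
    exact b1

end proof

open Pool.Agent.U687.MC in
/-- **The strong conjecture up to units at `3` in the successive prime twists of every `E_D`.** -/
theorem result :
    (∀ (D n : ℕ) (P : Fin (n + 1) → ℕ) (j : ℕ → ℕ) (k : ℕ), Family D → IsEnumeration D n P →
      Admissible j k D →
      (LimitExists j good k D ∧ iterated j good (k + 1) D = chain (symbols D P) k 0) ∧
      (LimitExists j other k D ∧ iterated j other (k + 1) D = 1 - chain (symbols D P) k 0)) ∧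
    (∀ D : ℕ, Family D →
      (∃ P, IsEnumeration D (D.primeFactors.filter fun p => p % 3 = 1).card P) ∧
      ∀ (j : ℕ → ℕ) (k : ℕ), Admissible j k D →
        LimitExists j good k D ∧ LimitExists j other k D ∧
        iterated j other (k + 1) D = 1 - iterated j good (k + 1) D ∧
        (2 / 3 : ℝ) ^ ((D.primeFactors.filter fun p => p % 3 = 1).card + 1 + k) ≤
          iterated j good (k + 1) D ∧ iterated j good (k + 1) D ≤ 2 / 3 ∧
        |iterated j good (k + 1) D - limit| ≤
          (2 ^ (D.primeFactors.filter fun p => p % 3 = 1).card + 1) * (2 / 3) ^ k) ∧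
    (∀ (D : ℕ) (j : ℕ → ℕ), Family D → (∀ k, Admissible j k D) →
      Tendsto (fun k => iterated j good k D) atTop (nhds limit)) ∧
    (0.56 : ℝ) < limit ∧ limit < 0.5602 := by
  have part2 : ∀ D : ℕ, Family D →
      (∃ P, IsEnumeration D (D.primeFactors.filter fun p => p % 3 = 1).card P) ∧
      ∀ (j : ℕ → ℕ) (k : ℕ), Admissible j k D →
        LimitExists j good k D ∧ LimitExists j other k D ∧
        iterated j other (k + 1) D = 1 - iterated j good (k + 1) D ∧
        (2 / 3 : ℝ) ^ ((D.primeFactors.filter fun p => p % 3 = 1).card + 1 + k) ≤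
          iterated j good (k + 1) D ∧ iterated j good (k + 1) D ≤ 2 / 3 ∧
        |iterated j good (k + 1) D - limit| ≤
          (2 ^ (D.primeFactors.filter fun p => p % 3 = 1).card + 1) * (2 / 3) ^ k := by
    intro D hD
    obtain ⟨P, hP⟩ := exists_en (bs hD)
    have hP' : IsEnumeration D (D.primeFactors.filter fun p => p % 3 = 1).card P :=
      ⟨hP.inj, hP.img, hP.last, hP.one⟩
    refine ⟨⟨P, hP'⟩, fun j k hj => ?_⟩
    obtain ⟨⟨g1, g2⟩, ⟨b1, b2⟩⟩ := main hD hP' hj
    refine ⟨g1, b1, by rw [b2, g2], ?_, ?_, ?_⟩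
    · rw [g2, chain_eq]
      exact d2_ge k _
    · rw [g2, chain_eq]
      exact d2_le k _
    · rw [g2, chain_eq]
      exact conv2 k _
  refine ⟨fun D n P j k hD hP hj => main hD hP hj, part2, ?_, ppi_bounds⟩
  intro D j hD hj
  have h := (part2 D hD).2
  rw [← tendsto_add_atTop_iff_nat 1]
  rw [tendsto_iff_dist_tendsto_zero]
  have h0 : Tendsto (fun k : ℕ =>
      (2 ^ (D.primeFactors.filter fun p => p % 3 = 1).card + 1) * (2 / 3 : ℝ) ^ k) atTop
      (nhds 0) := by
    have := (tendsto_pow_atTop_nhds_zero_of_lt_one (r := (2 / 3 : ℝ)) (by norm_num)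
      (by norm_num)).const_mul
        (2 ^ (D.primeFactors.filter fun p => p % 3 = 1).card + 1 : ℝ)
    rwa [mul_zero] at this
  refine squeeze_zero (fun k => dist_nonneg) (fun k => ?_) h0
  rw [Real.dist_eq]
  exact (h j k (hj k)).2.2.2.2.2

end Pool.Agent.Results.MP_4a9ea6_nt.IteratedPrimeTwists
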