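import Pool.Agent.U80.WQ.JLaw
import Pool.Agent.Results.MP_92892c_nt.FullClassTwoPartX49

/-!
# The 2-part of the strong conjecture, at the same time, for fibres of the surfaces
# `M (t² + 1) y² = x³ - 35 x - 98`

Let `M` be a squarefree product of primes `≡ 1 mod 4` and `t = a / b ∈ ℚ` (in lowest terms) such that
`height t = a² + b²` is odd and squarefree. The fibre at `t` of the elliptic surface
`M (t² + 1) y² = x³ - 35 x - 98` is the quadratic twist `E D` by `D = tw M (height t)`, the squarefree part of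
`M (a² + b²)`, of `X_0(49) : y² + x y = x³ - x² - 2 x - 1`. Let
`z = #E_D(ℚ)_tors² L(E_D, 1) / (Ω ∏ c_p)`, which is zero or the order of `Ш(E_D/ℚ)` according to the conjecture,
and let `TwoPart D` be the 2-part of the conjecture with `z` a unit at two: `L(E_D, 1) ≠ 0`, `E_D(ℚ)` is finite,
`Ш(E_D/ℚ)[2^∞] = 0` and `z`, `1 / z` are integral at the primes above two.

* For all these `M` and `t` the formula holds modulo two, and `TwoPart D` holds iff `E_D(ℚ)` is finite and
  `Ш(E_D/ℚ)[2] = 0` (this part is helper428's and helper413's theorem on the class of the `D`).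
* Let `T` be a finite set of the `M` and `V ⊆ T`. For exactly the proportion `c ^ |V| (1 - c) ^ |T \ V|` of
  the `t`, `c = ∏_{i ≥ 0} (1 - 2^{-(2i+1)}) = 0.4194...`, `V` is the set of the `M ∈ T` for which the 2-part of
  the conjecture holds with a unit for the fibre at `t`: these events are independent.
* For every finite set `T` of the `M`, the 2-part of the conjecture holds, with a unit, for all the fibres at
  `t`, `M ∈ T`, for a positive proportion of ALL rational numbers `t`, ordered by `a² + b²` or by the usual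
  height `max (|a|, |b|)`.

The numbers `a² + b²` have density zero among the integers. The count with the weights `2 ^ ω(D)` is in
`Pool/Agent/U80/WQ`; it is the weighted form of the count of the `D` in `Pool/Agent/R413/SQ` and `R413/SM`
(after the projects CQ and JQ of the starting files), with another sieve, another bound for the large values
and a lower bound from a count of squarefree values of the form.
-/

set_option autoImplicit false

open scoped Classical

open WeierstrassCurve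

namespace Pool.Agent.Results.MP_4a9ea6_nt.TwoPartSumsOfSquares

open Pool.Agent.Results.MP_4a9ea6_nt.TwoPartTwistsX49 (E twist MinimalAt nonsing c Tam cubic Omega
  torsOrder anOrder TwoPart)
open Pool.Agent.Results.MP_92892c_nt.FullClassTwoPartX49 (RankZeroShaTwo FormulaModTwo)

/-- the height `a² + b²` of the rational number `t = a / b` in lowest terms -/
def height (t : ℚ) : ℕ := t.num.natAbs ^ 2 + t.den ^ 2

/-- the squarefree part of `M D`, for squarefree `M` and `D` -/
def tw (M D : ℕ) : ℕ := M * D / Nat.gcd M D ^ 2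

/-- the class of the `M`: squarefree products of primes `≡ 1 mod 4` -/
def Class (M : ℕ) : Prop := Squarefree M ∧ ∀ p ∈ M.primeFactors, p % 4 = 1

/-- the rational numbers `t` of height at most `X`, the height being odd and squarefree, with the
property `P` -/
def Params (P : ℚ → Prop) (X : ℕ) : Set ℚ :=
  {t | height t ≤ X ∧ Odd (height t) ∧ Squarefree (height t) ∧ P t}

/-- `V` is the set of the `M ∈ T` for which the 2-part of the conjecture holds, with a unit, for the fibre
at `t` -/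
def Pattern (T V : Finset ℕ) (t : ℚ) : Prop := ∀ M ∈ T, (TwoPart (tw M (height t)) ↔ M ∈ V)

/-- the 2-part of the conjecture holds, with a unit, for the fibres at `t` of all the surfaces, `M ∈ T` -/
def AllTwoPart (T : Finset ℕ) (t : ℚ) : Prop := ∀ M ∈ T, TwoPart (tw M (height t))

/-- the constant `0.4194...` -/
noncomputable def cc : ℝ := ∏' i : ℕ, (1 - (1 / 2 : ℝ) ^ (2 * i + 1))

section proof

open Pool.Agent.R413.SQ
open Pool.Agent.Results.MP_4a9ea6_nt.TwoPartTwistsX49 (Adm mat two_iff adm_mod)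
open Pool.Agent.U80.WQ (ht TS Pt)

theorem adm_of {t : ℚ} (h1 : Odd (height t)) (h2 : Squarefree (height t)) : Adm (height t) :=
  ⟨h2, fun p hp => (Pool.Agent.U80.WQ.ht_cl h2 h1 p hp).2⟩

theorem height_pos (t : ℚ) : 0 < height t := by
  have := t.den_pos
  unfold height
  positivity

theorem par_pat {T V : Finset ℕ} (hT : ∀ M ∈ T, Adm M) (X : ℕ) : Params (Pattern T V) X =
    TS X fun D => Pt T V D.primeFactors := by
  ext t
  have key : Odd (height t) → Squarefree (height t) →
      (Pattern T V t ↔ Pt T V (height t).primeFactors) := by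
    intro h1 h2
    have hA := adm_of h1 h2
    rw [← Pool.Agent.U80.WQ.pt_iff hT hA]
    refine forall₂_congr fun M hM => ?_
    rw [← two_iff (Joint.adm_tw (hT M hM) hA)]
    rfl
  constructor
  · rintro ⟨h1, h2, h3, h4⟩
    exact ⟨h1, h2, h3, (key h2 h3).1 h4⟩
  · rintro ⟨h1, h2, h3, h4⟩
    exact ⟨h1, h2, h3, (key h2 h3).2 h4⟩

theorem par_all (X : ℕ) : Params (fun _ => True) X = TS X fun _ => True := rfl

theorem fib_eq {M : ℕ} {t : ℚ} (hM : Adm M) (hA : Adm (height t)) (x y : ℚ) :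
    M * (t ^ 2 + 1) * y ^ 2 = x ^ 3 - 35 * x - 98 ↔
      (E (tw M (height t))).toAffine.Equation ((tw M (height t) * x + tw M (height t)) / 4)
        (((tw M (height t) : ℚ) ^ 2 * Nat.gcd M (height t) / t.den * y - tw M (height t) * x -
          tw M (height t)) / 8) := by
  have hD4 := adm_mod (Joint.adm_tw hM hA)
  have hD4' : tw M (height t) % 4 = 1 := hD4
  obtain ⟨j, hj⟩ : ∃ j : ℕ, tw M (height t) = 1 + 4 * j := ⟨tw M (height t) / 4, by omega⟩
  have h3D : (3 * (tw M (height t) : ℤ) + 1) / 4 = 1 + 3 * j := by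
    rw [hj]
    push_cast
    omega
  have hjq : (tw M (height t) : ℚ) = 1 + 4 * j := by rw [hj]; push_cast; ring
  rw [Affine.equation_iff]
  have hb : (t.den : ℚ) ≠ 0 := by exact_mod_cast t.den_pos.ne'
  have hH : (height t : ℚ) = (t.den : ℚ) ^ 2 * (t ^ 2 + 1) := by
    have h1 : ((height t : ℕ) : ℤ) = t.num ^ 2 + (t.den : ℤ) ^ 2 := Pool.Agent.U80.WQ.ht_int t
    have h2 : ((height t : ℕ) : ℚ) = (t.num : ℚ) ^ 2 + (t.den : ℚ) ^ 2 := by exact_mod_cast h1
    have h3 : (t.num : ℚ) = t * t.den := by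
      rw [Rat.mul_den_eq_num]
    rw [h2, h3]
    ring
  have hD := (Joint.ac_tw hM hA).2
  have hD' : (M : ℚ) * (height t : ℚ) = (tw M (height t) : ℚ) * (Nat.gcd M (height t) : ℚ) ^ 2 := by
    exact_mod_cast hD
  have hD0 : (tw M (height t) : ℚ) ≠ 0 := by
    intro h0
    rw [h0, zero_mul] at hD'
    have h1 : (M : ℚ) ≠ 0 := by exact_mod_cast hM.1.ne_zero
    have h2 : (height t : ℚ) ≠ 0 := by exact_mod_cast (height_pos t).ne'
    exact mul_ne_zero h1 h2 hD'
  simp only [twist, WeierstrassCurve.map, h3D, eq_intCast]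
  push_cast
  rw [← sub_eq_iff_eq_add'] at hjq
  have hj4 : (j : ℚ) = ((tw M (height t) : ℚ) - 1) / 4 := by linarith
  rw [hj4]
  set D : ℚ := (tw M (height t) : ℚ) with hDd
  set g : ℚ := (Nat.gcd M (height t) : ℚ) with hg
  have e1 : (D ^ 2 * g / t.den * y) ^ 2 = D ^ 3 * (M * (t ^ 2 + 1) * y ^ 2) := by
    have h1 : (M : ℚ) * (t ^ 2 + 1) = D * g ^ 2 / (t.den : ℚ) ^ 2 := by
      rw [eq_div_iff (pow_ne_zero 2 hb), ← hD', hH]
      ring
    rw [h1]
    field_simp
  constructor
  · intro h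
    have := e1
    rw [h] at this
    linear_combination this / 64
  · intro h
    have h4 : D ^ 3 * (M * (t ^ 2 + 1) * y ^ 2) = D ^ 3 * (x ^ 3 - 35 * x - 98) := by
      rw [← e1]
      linear_combination 64 * h
    exact mul_left_cancel₀ (pow_ne_zero 3 hD0) h4

theorem pos_all {T : Finset ℕ} (hT : ∀ M ∈ T, Adm M) :
    ∃ (c : ℝ) (X₀ : ℕ), 0 < c ∧ ∀ X : ℕ, X₀ ≤ X →
      c * X ≤ ((Params (AllTwoPart T) X).ncard : ℝ) := by
  obtain ⟨c, X₀, hc0, h⟩ := Pool.Agent.U80.WQ.joint_count hT (Finset.Subset.refl T)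
  refine ⟨c, X₀, hc0, fun X hX => ?_⟩
  have h1 := h X hX
  rw [← par_pat hT] at h1
  have h3 : (Params (Pattern T T) X).ncard ≤ (Params (AllTwoPart T) X).ncard := by
    refine Set.ncard_le_ncard (fun t ht => ⟨ht.1, ht.2.1, ht.2.2.1, fun M hM => ?_⟩)
      ((Pool.Agent.U80.WQ.finite_ht X).subset fun t ht => ht.1)
    exact (ht.2.2.2 M hM).2 hM
  exact h1.trans (by exact_mod_cast h3)

theorem box_fin (N : ℕ) : {t : ℚ | max t.num.natAbs t.den ≤ N}.Finite := by
  refine (Pool.Agent.U80.WQ.finite_ht (2 * N ^ 2)).subset fun t ht => ?_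
  have h1 : max t.num.natAbs t.den ≤ N := ht
  have h2 : t.num.natAbs ≤ N := (le_max_left _ _).trans h1
  have h3 : t.den ≤ N := (le_max_right _ _).trans h1
  have h4 := Nat.pow_le_pow_left h2 2
  have h5 := Nat.pow_le_pow_left h3 2
  show t.num.natAbs ^ 2 + t.den ^ 2 ≤ 2 * N ^ 2
  omega

theorem box_card (N : ℕ) : ({t : ℚ | max t.num.natAbs t.den ≤ N}.ncard : ℝ) ≤ 6 * N ^ 2 := by
  have h1 : {t : ℚ | max t.num.natAbs t.den ≤ N} ⊆ {t : ℚ | ht t ≤ 2 * N ^ 2} := by
    intro t ht'
    have h1 : max t.num.natAbs t.den ≤ N := ht'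
    have h2 : t.num.natAbs ≤ N := (le_max_left _ _).trans h1
    have h3 : t.den ≤ N := (le_max_right _ _).trans h1
    have h4 := Nat.pow_le_pow_left h2 2
    have h5 := Nat.pow_le_pow_left h3 2
    show t.num.natAbs ^ 2 + t.den ^ 2 ≤ 2 * N ^ 2
    omega
  have h2 := Set.ncard_le_ncard h1 (Pool.Agent.U80.WQ.finite_ht (2 * N ^ 2))
  have h3 := Pool.Agent.U80.WQ.total_t (2 * N ^ 2)
  have h4 : ({t : ℚ | max t.num.natAbs t.den ≤ N}.ncard : ℝ) ≤
      ({t : ℚ | ht t ≤ 2 * N ^ 2}.ncard : ℝ) := by exact_mod_cast h2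
  push_cast at h3
  linarith

end proof

theorem result :
    (∀ (M : ℕ) (t : ℚ), Class M → Odd (height t) → Squarefree (height t) →
      Class (tw M (height t)) ∧ M * height t = tw M (height t) * Nat.gcd M (height t) ^ 2 ∧
      (∀ x y : ℚ, M * (t ^ 2 + 1) * y ^ 2 = x ^ 3 - 35 * x - 98 ↔
        (E (tw M (height t))).toAffine.Equation ((tw M (height t) * x + tw M (height t)) / 4)
          (((tw M (height t) : ℚ) ^ 2 * Nat.gcd M (height t) / t.den * y - tw M (height t) * x -
            tw M (height t)) / 8)) ∧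
      FormulaModTwo (tw M (height t)) ∧
      (TwoPart (tw M (height t)) ↔ RankZeroShaTwo (tw M (height t)))) ∧
    (∀ T V : Finset ℕ, (∀ M ∈ T, Class M) → V ⊆ T →
      Filter.Tendsto (fun X : ℕ => ((Params (Pattern T V) X).ncard : ℝ) /
        ((Params (fun _ => True) X).ncard : ℝ)) Filter.atTop
        (nhds (cc ^ V.card * (1 - cc) ^ (T \ V).card))) ∧
    0.4194 < cc ∧ cc < 0.4195 ∧
    (∀ T : Finset ℕ, (∀ M ∈ T, Class M) → ∃ (c : ℝ) (X₀ : ℕ), 0 < c ∧ ∀ X : ℕ, X₀ ≤ X →
      c * ({t : ℚ | height t ≤ X}.ncard : ℝ) ≤ ((Params (AllTwoPart T) X).ncard : ℝ) ∧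
      c * ({t : ℚ | max t.num.natAbs t.den ≤ X}.ncard : ℝ) ≤
        ({t : ℚ | max t.num.natAbs t.den ≤ X ∧ Odd (height t) ∧ Squarefree (height t) ∧
          AllTwoPart T t}.ncard : ℝ)) := by
  have hc := Pool.Agent.Y948.CQ.t_C2.2.2.2
  refine ⟨fun M t hM h1 h2 => ?_, fun T V hT hV => ?_, hc.1, hc.2, fun T hT => ?_⟩
  · have hA := adm_of h1 h2
    have hD := Pool.Agent.R413.SQ.Joint.adm_tw hM hA
    exact ⟨hD, (Pool.Agent.R413.SQ.Joint.ac_tw hM hA).2, fib_eq hM hA,
      Pool.Agent.Results.MP_92892c_nt.FullClassTwoPartX49.modTwo hD,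
      Pool.Agent.Results.MP_92892c_nt.FullClassTwoPartX49.two_sel hD⟩
  · have h := Pool.Agent.U80.WQ.joint_t hT hV
    simp only [par_pat hT, par_all]
    exact h
  · obtain ⟨c, X₀, hc0, h⟩ := pos_all hT
    refine ⟨c / 6, X₀, by positivity, fun X hX => ⟨?_, ?_⟩⟩
    · have h1 := h X hX
      have h2 : ({t : ℚ | height t ≤ X}.ncard : ℝ) ≤ 3 * X := Pool.Agent.U80.WQ.total_t X
      refine le_trans ?_ h1
      have h3 : (0 : ℝ) ≤ X := Nat.cast_nonneg X
      calc c / 6 * ({t : ℚ | height t ≤ X}.ncard : ℝ) ≤ c / 6 * (3 * X) :=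
            mul_le_mul_of_nonneg_left h2 (by positivity)
        _ ≤ c * X := by nlinarith
    · have hX1 : X ≤ X ^ 2 := Nat.le_self_pow (by norm_num) X
      have h1 := h (X ^ 2) (by omega)
      have h2 : ({t : ℚ | max t.num.natAbs t.den ≤ X}.ncard : ℝ) ≤ 6 * X ^ 2 := box_card X
      have h3 : Params (AllTwoPart T) (X ^ 2) ⊆
          {t : ℚ | max t.num.natAbs t.den ≤ X ∧ Odd (height t) ∧ Squarefree (height t) ∧
            AllTwoPart T t} := by
        rintro t ⟨h4, h5⟩
        refine ⟨?_, h5⟩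
        have h6 : t.num.natAbs ^ 2 + t.den ^ 2 ≤ X ^ 2 := h4
        refine max_le ?_ ?_
        · exact (Nat.pow_le_pow_iff_left (by norm_num : (2 : ℕ) ≠ 0)).1 (by omega)
        · exact (Nat.pow_le_pow_iff_left (by norm_num : (2 : ℕ) ≠ 0)).1 (by omega)
      have h4 := Set.ncard_le_ncard h3 ((box_fin X).subset fun t ht => ht.1)
      have h5 : ((Params (AllTwoPart T) (X ^ 2)).ncard : ℝ) ≤
          ({t : ℚ | max t.num.natAbs t.den ≤ X ∧ Odd (height t) ∧ Squarefree (height t) ∧
            AllTwoPart T t}.ncard : ℝ) := by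
        exact_mod_cast h4
      push_cast at h1
      refine le_trans ?_ (h1.trans h5)
      calc c / 6 * ({t : ℚ | max t.num.natAbs t.den ≤ X}.ncard : ℝ) ≤ c / 6 * (6 * X ^ 2) :=
            mul_le_mul_of_nonneg_left h2 (by positivity)
        _ = c * X ^ 2 := by ring

end Pool.Agent.Results.MP_4a9ea6_nt.TwoPartSumsOfSquares
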